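import Pool.Agent.H95.CMC.Targets

/-!
Row F_MKL of the board cm4_modules (`MP_52e316_nt`): Minkowski for a subgroup of finite index of the
integers of a number field: a nonzero vector of small norm.
-/

set_option autoImplicit false

open MeasureTheory Set Filter NumberField
open scoped Real nonZeroDivisors
open Pool.Agent.H65.CM4 Pool.Agent.H65.CMC Pool.Agent.H95.CMC

namespace Pool.Agent.H98.CMC

open NumberField.mixedEmbedding NumberField.InfinitePlace Module

open scoped Classical in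
/-- a real basis of the mixed space whose integral span is the lattice of the subgroup -/
theorem exists_basis (K : Type) [Field K] [NumberField K] (Λ : AddSubgroup (𝓞 K))
    (h : Λ.index ≠ 0) :
    ∃ c : Basis (Free.ChooseBasisIndex ℤ (𝓞 K)) ℝ (mixedSpace K),
      (∀ x ∈ Submodule.span ℤ (Set.range c), ∃ a ∈ Λ, mixedEmbedding K (a : K) = x) ∧
      volume (ZSpan.fundamentalDomain c) = ENNReal.ofReal (Λ.index : ℝ) *
        volume (ZSpan.fundamentalDomain (latticeBasis K)) := by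
  set N : Submodule ℤ (𝓞 K) := AddSubgroup.toIntSubmodule Λ with hN
  have hfin : Finite ((𝓞 K) ⧸ N) := by
    have : Λ.FiniteIndex := ⟨h⟩
    exact (inferInstance : Finite ((𝓞 K) ⧸ Λ))
  have hrk := (Submodule.finiteQuotient_iff N).mp hfin
  let e : (Free.ChooseBasisIndex ℤ N) ≃ (Free.ChooseBasisIndex ℤ (𝓞 K)) := by
    refine Fintype.equivOfCardEq ?_
    rw [← finrank_eq_card_chooseBasisIndex, ← finrank_eq_card_chooseBasisIndex, hrk]
  let bN := (Free.chooseBasis ℤ N).reindex e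
  let b0 := RingOfIntegers.basis K
  have hdet : Λ.index = (b0.det (fun i => (bN i : 𝓞 K))).natAbs :=
    AddSubgroup.index_eq_natAbs_det b0 Λ bN
  let c0 : Free.ChooseBasisIndex ℤ (𝓞 K) → mixedSpace K :=
    fun i => mixedEmbedding K ((bN i : 𝓞 K) : K)
  have hc0 : ∀ i, c0 i = ∑ j, ((b0.repr (bN i : 𝓞 K) j : ℤ) : ℝ) • latticeBasis K j := by
    intro i
    have e1 : ((bN i : 𝓞 K) : K) = ∑ j, (b0.repr (bN i : 𝓞 K) j) • ((b0 j : 𝓞 K) : K) := by
      have e2 : algebraMap (𝓞 K) K (bN i : 𝓞 K) = algebraMap (𝓞 K) K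
          (∑ j, (b0.repr (bN i : 𝓞 K) j) • b0 j) := by
        rw [b0.sum_repr]
      rw [map_sum] at e2
      refine e2.trans (Finset.sum_congr rfl fun j _ => ?_)
      rw [map_zsmul]
    change mixedEmbedding K ((bN i : 𝓞 K) : K) = _
    rw [e1, map_sum]
    refine Finset.sum_congr rfl fun j _ => ?_
    rw [map_zsmul, latticeBasis_apply, integralBasis_apply, Int.cast_smul_eq_zsmul]
  have hmat : (latticeBasis K).toMatrix c0 =
      (b0.toMatrix (fun i => (bN i : 𝓞 K))).map (Int.castRingHom ℝ) := by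
    ext i j
    rw [Basis.toMatrix_apply, hc0 j, Matrix.map_apply, Basis.toMatrix_apply, map_sum,
      Finset.sum_apply']
    simp only [map_smul, Basis.repr_self, Finsupp.smul_apply, Finsupp.single_apply, smul_eq_mul,
      mul_ite, mul_one, mul_zero, Finset.sum_ite_eq', Finset.mem_univ, if_true, eq_intCast]
  have hdet2 : (latticeBasis K).det c0 = ((b0.det (fun i => (bN i : 𝓞 K)) : ℤ) : ℝ) := by
    rw [Basis.det_apply, Basis.det_apply, hmat, ← RingHom.mapMatrix_apply, ← RingHom.map_det,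
      eq_intCast]
  have hne : (b0.det (fun i => (bN i : 𝓞 K))) ≠ 0 := by
    intro h0
    rw [h0] at hdet
    exact h hdet
  have hu : IsUnit ((latticeBasis K).det c0) := by
    rw [hdet2]
    exact isUnit_iff_ne_zero.mpr (Int.cast_ne_zero.mpr hne)
  obtain ⟨hli, hsp⟩ := ((latticeBasis K).is_basis_iff_det).mpr hu
  let c : Basis (Free.ChooseBasisIndex ℤ (𝓞 K)) ℝ (mixedSpace K) := Basis.mk hli hsp.ge
  have hc : (c : Free.ChooseBasisIndex ℤ (𝓞 K) → mixedSpace K) = c0 := Basis.coe_mk hli hsp.ge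
  refine ⟨c, ?_, ?_⟩
  · intro x hx
    rw [hc] at hx
    let φ : 𝓞 K →+ mixedSpace K := ((mixedEmbedding K).comp (algebraMap (𝓞 K) K)).toAddMonoidHom
    have h1 : Submodule.span ℤ (Set.range c0) ≤ N.map φ.toIntLinearMap := by
      rw [Submodule.span_le]
      rintro _ ⟨i, rfl⟩
      exact ⟨(bN i : 𝓞 K), (bN i).2, rfl⟩
    obtain ⟨a, ha, hax⟩ := h1 hx
    exact ⟨a, ha, hax⟩
  · rw [ZSpan.measure_fundamentalDomain c volume (latticeBasis K), hc, hdet2, hdet]
    congr 2
    rw [Nat.cast_natAbs, Int.cast_abs]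

open scoped Classical in
/-- Minkowski's theorem for the lattice of the subgroup -/
theorem exists_of_norm_le (K : Type) [Field K] [NumberField K] (Λ : AddSubgroup (𝓞 K))
    (c : Basis (Free.ChooseBasisIndex ℤ (𝓞 K)) ℝ (mixedSpace K))
    (hc : ∀ x ∈ Submodule.span ℤ (Set.range c), ∃ a ∈ Λ, mixedEmbedding K (a : K) = x)
    {B : ℝ} (hB : 0 ≤ B)
    (h : volume (ZSpan.fundamentalDomain c) * (2 : ENNReal) ^ (finrank ℝ (mixedSpace K)) ≤
      volume (convexBodySum K B)) :
    ∃ a ∈ Λ, a ≠ 0 ∧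
      |Algebra.norm ℚ (a : K)| ≤ (B / finrank ℚ K) ^ finrank ℚ K := by
  have h1 : 0 < (finrank ℚ K : ℝ)⁻¹ := inv_pos.mpr (Nat.cast_pos.mpr finrank_pos)
  have h2 : 0 ≤ B / (finrank ℚ K) := div_nonneg hB (Nat.cast_nonneg _)
  have h_fund := ZSpan.isAddFundamentalDomain' c volume
  have : Countable (Submodule.span ℤ (Set.range c)).toAddSubgroup := by
    change Countable (Submodule.span ℤ (Set.range c))
    infer_instance
  obtain ⟨⟨x, hx⟩, h_nz, h_mem⟩ := exists_ne_zero_mem_lattice_of_measure_mul_two_pow_le_measure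
      h_fund (fun _ ↦ convexBodySum_neg_mem K B) (convexBodySum_convex K B)
      (convexBodySum_compact K B) h
  obtain ⟨a, ha, rfl⟩ := hc x hx
  refine ⟨a, ha, ?_, ?_⟩
  · rintro rfl
    apply h_nz
    ext1
    simp
  rw [← Real.rpow_natCast, ← Real.rpow_le_rpow_iff (by simp only [Rat.cast_abs, abs_nonneg])
      (Real.rpow_nonneg h2 _) h1, ← Real.rpow_mul h2, mul_inv_cancel₀ (Nat.cast_ne_zero.mpr
      (ne_of_gt finrank_pos)), Real.rpow_one, le_div_iff₀' (Nat.cast_pos.mpr finrank_pos)]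
  refine le_trans ?_ ((convexBodySum_mem K B).mp h_mem)
  rw [← le_div_iff₀' (Nat.cast_pos.mpr finrank_pos), ← sum_mult_eq, Nat.cast_sum]
  refine le_trans ?_ (Real.geom_mean_le_arith_mean Finset.univ _ _ (fun _ _ => Nat.cast_nonneg _)
    ?_ (fun _ _ => AbsoluteValue.nonneg _ _))
  · simp_rw [← prod_eq_abs_norm, Real.rpow_natCast]
    exact le_of_eq rfl
  · rw [← Nat.cast_sum, sum_mult_eq, Nat.cast_pos]
    exact finrank_pos

theorem exists_norm_le_index (K : Type) [Field K] [NumberField K] (Λ : AddSubgroup (𝓞 K))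
    (hΛ : Λ.index ≠ 0) :
    ∃ a ∈ Λ, a ≠ 0 ∧
      |Algebra.norm ℚ (a : K)| ≤ (Λ.index : ℝ) * (4 / π) ^ nrComplexPlaces K *
        (finrank ℚ K).factorial / (finrank ℚ K) ^ (finrank ℚ K) * Real.sqrt |discr K| := by
  classical
  obtain ⟨c, hc, hvol⟩ := exists_basis K Λ hΛ
  set mB : ENNReal := volume (ZSpan.fundamentalDomain c) *
    (2 : ENNReal) ^ (finrank ℝ (mixedSpace K)) with hmB
  have hlt : mB < ⊤ := ENNReal.mul_lt_top (ZSpan.fundamentalDomain_isBounded _).measure_lt_top <|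
    ENNReal.pow_lt_top ENNReal.ofNat_lt_top
  let B := (mB * (convexBodySumFactor K)⁻¹).toReal ^ (1 / (finrank ℚ K : ℝ))
  have hB : 0 ≤ B := by positivity
  have h_le : mB ≤ volume (convexBodySum K B) := by
    refine le_of_eq ?_
    rw [convexBodySum_volume, ← ENNReal.ofReal_pow (by positivity), ← Real.rpow_natCast,
      ← Real.rpow_mul ENNReal.toReal_nonneg, div_mul_cancel₀, Real.rpow_one, ENNReal.ofReal_toReal,
      mul_comm, mul_assoc, ← ENNReal.coe_mul, inv_mul_cancel₀ (convexBodySumFactor_ne_zero K),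
      ENNReal.coe_one, mul_one]
    · exact ENNReal.mul_ne_top (ne_of_lt hlt) ENNReal.coe_ne_top
    · exact (Nat.cast_ne_zero.mpr (ne_of_gt finrank_pos))
  obtain ⟨a, ha, ha0, hab⟩ := exists_of_norm_le K Λ c hc hB h_le
  refine ⟨a, ha, ha0, hab.trans (le_of_eq ?_)⟩
  rw [div_pow B, ← Real.rpow_natCast B, ← Real.rpow_mul (by positivity), div_mul_cancel₀ _
    (Nat.cast_ne_zero.mpr <| ne_of_gt finrank_pos), Real.rpow_one, mul_comm_div, mul_div_assoc']
  congr 1
  calc
    _ = (Λ.index : ℝ) * (2 : ℝ)⁻¹ ^ nrComplexPlaces K * NNReal.sqrt ‖discr K‖₊ *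
          (2 : ℝ) ^ finrank ℚ K * ((2 : ℝ) ^ nrRealPlaces K * (π / 2) ^ nrComplexPlaces K /
            (Nat.factorial (finrank ℚ K)))⁻¹ := by
      rw [hmB, hvol]
      simp_rw [convexBodySumFactor,
        volume_fundamentalDomain_latticeBasis, ENNReal.toReal_mul, ENNReal.toReal_pow,
        ENNReal.toReal_inv, ENNReal.coe_toReal,
        ENNReal.toReal_ofNat, mixedEmbedding.finrank, mul_assoc]
      rw [ENNReal.toReal_ofReal (Nat.cast_nonneg _)]
      simp_rw [NNReal.coe_inv, NNReal.coe_div, NNReal.coe_mul, NNReal.coe_pow, NNReal.coe_div,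
        NNReal.coe_real_pi, NNReal.coe_ofNat, NNReal.coe_natCast]
    _ = (Λ.index : ℝ) * (2 : ℝ) ^ (finrank ℚ K - nrComplexPlaces K - nrRealPlaces K +
          nrComplexPlaces K : ℤ) * Real.sqrt ‖discr K‖ * Nat.factorial (finrank ℚ K) *
            π⁻¹ ^ (nrComplexPlaces K) := by
      simp_rw [inv_div, div_eq_mul_inv, mul_inv, ← zpow_neg_one, ← zpow_natCast, mul_zpow,
        ← zpow_mul, neg_one_mul, mul_neg_one, neg_neg, Real.coe_sqrt, coe_nnnorm, sub_eq_add_neg,
        zpow_add₀ (two_ne_zero : (2 : ℝ) ≠ 0)]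
      ring
    _ = (Λ.index : ℝ) * (2 : ℝ) ^ (2 * nrComplexPlaces K : ℤ) * Real.sqrt ‖discr K‖ *
          Nat.factorial (finrank ℚ K) * π⁻¹ ^ (nrComplexPlaces K) := by
      congr
      rw [← card_add_two_mul_card_eq_rank, Nat.cast_add, Nat.cast_mul, Nat.cast_ofNat]
      ring
    _ = (Λ.index : ℝ) * (4 / π) ^ nrComplexPlaces K * (finrank ℚ K).factorial *
          Real.sqrt |(discr K : ℝ)| := by
      rw [Int.norm_eq_abs, zpow_mul, show (2 : ℝ) ^ (2 : ℤ) = 4 by norm_cast, div_pow,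
        inv_eq_one_div, div_pow, one_pow, zpow_natCast]
      ring
    _ = _ := by ring

theorem pf_MKL : T_MKL := by
  intro K _ _ Λ hΛ
  obtain ⟨a, ha, ha0, hab⟩ := exists_norm_le_index K Λ hΛ
  refine ⟨a, ha, ha0, ?_⟩
  have h5 : |((Algebra.norm ℚ (a : K) : ℚ) : ℝ)| ≤ ((Λ.index : ℕ) : ℝ) *
      (4 / π) ^ InfinitePlace.nrComplexPlaces K *
        ((Module.finrank ℚ K).factorial : ℝ) / (Module.finrank ℚ K : ℝ) ^ (Module.finrank ℚ K) *
        Real.sqrt |(discr K : ℝ)| := by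
    exact_mod_cast hab
  refine h5.trans ?_
  have hfin : 0 < Module.finrank ℚ K := Module.finrank_pos
  have h6 : ((Module.finrank ℚ K).factorial : ℝ) / (Module.finrank ℚ K : ℝ) ^ (Module.finrank ℚ K)
      ≤ 1 := by
    rw [div_le_one (by positivity)]
    exact_mod_cast Nat.factorial_le_pow _
  have h7 : (4 / π) ^ InfinitePlace.nrComplexPlaces K ≤ (4 / π) ^ (Module.finrank ℚ K) := by
    refine pow_le_pow_right₀ ?_ ?_
    · rw [le_div_iff₀ Real.pi_pos, one_mul]
      exact Real.pi_le_four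
    · have := InfinitePlace.card_add_two_mul_card_eq_rank K
      omega
  have h8 : 0 ≤ Real.sqrt |(discr K : ℝ)| := Real.sqrt_nonneg _
  have h9 : (0 : ℝ) ≤ ((Λ.index : ℕ) : ℝ) := Nat.cast_nonneg _
  have h10 : (0 : ℝ) ≤ (4 / π) ^ InfinitePlace.nrComplexPlaces K := by positivity
  have h11 : (0 : ℝ) ≤ (4 / π) ^ (Module.finrank ℚ K) := by positivity
  calc ((Λ.index : ℕ) : ℝ) * (4 / π) ^ InfinitePlace.nrComplexPlaces K *
        ((Module.finrank ℚ K).factorial : ℝ) / (Module.finrank ℚ K : ℝ) ^ (Module.finrank ℚ K) *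
        Real.sqrt |(discr K : ℝ)|
      = (4 / π) ^ InfinitePlace.nrComplexPlaces K * (((Module.finrank ℚ K).factorial : ℝ) /
        (Module.finrank ℚ K : ℝ) ^ (Module.finrank ℚ K)) *
        (Real.sqrt |(discr K : ℝ)| * ((Λ.index : ℕ) : ℝ)) := by ring
    _ ≤ (4 / π) ^ (Module.finrank ℚ K) * 1 *
        (Real.sqrt |(discr K : ℝ)| * ((Λ.index : ℕ) : ℝ)) := by
        refine mul_le_mul_of_nonneg_right ?_ (by positivity)
        exact mul_le_mul h7 h6 (by positivity) h11
    _ = _ := by rw [mul_one]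

end Pool.Agent.H98.CMC
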